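import Pool.Agent.Lib.MP_2a6af3_al.C.Final

/-! MP_2a6af3_al: centralizers of elements of infinite order of metrically systolic groups are
quasi-isometrically embedded unless they are virtually cyclic. -/

namespace Pool.Agent.Results.MP_2a6af3_al.Centralizers

/-- Let `Γ` be a metrically systolic group and `a` an element of infinite order such that `⟨a⟩` has
infinite index in its centralizer.  Then the centralizer of `a` has a finite generating set `T` such
that for every finite subset `S` of `Γ` (for instance a generating set) there is `c` such that each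
element of the centralizer which is a product of `n` elements of `S` and inverses is a product of at
most `c n` elements of `T` and inverses. -/
theorem result (Γ : Type) [Group Γ] (hΓ : MSG.IsMSGroup Γ) (a : Γ) (ha : ¬ IsOfFinOrder a)
    (hinf : (Subgroup.zpowers a).relIndex (Subgroup.centralizer {a}) = 0) :
    ∃ T : Finset (Subgroup.centralizer {a}),
      Subgroup.closure (T : Set (Subgroup.centralizer {a})) = ⊤ ∧ ∀ S : Finset Γ, ∃ c : ℕ,
      ∀ (l : List Γ) (g : Subgroup.centralizer {a}), (∀ s ∈ l, s ∈ S ∨ s⁻¹ ∈ S) →
        l.prod = (g : Γ) → ∃ l' : List (Subgroup.centralizer {a}),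
          (∀ t ∈ l', t ∈ T ∨ t⁻¹ ∈ T) ∧ l'.prod = g ∧ l'.length ≤ c * l.length :=
  MSG.FS.cent_und Γ hΓ a ha hinf

end Pool.Agent.Results.MP_2a6af3_al.Centralizers
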