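import Pool.Agent.Lib.MP_2a6af3_al.Z.Group

/-! MP_2a6af3_al: solvable subgroups of metrically systolic groups which are not virtually cyclic
are finitely generated and quasi-isometrically embedded. -/

namespace Pool.Agent.Results.MP_2a6af3_al.SolvableSubgroups

/-- Let `Γ` be a metrically systolic group and `H` a solvable subgroup without cyclic subgroups of
finite index.  Then `H` has a finite generating set `T` such that for every finite subset `S` of `Γ`
(for instance a generating set) there is `c` such that each element of `H` which is a product of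
`n` elements of `S` and inverses is a product of at most `c n` elements of `T` and inverses. -/
theorem result (Γ : Type) [Group Γ] (hΓ : MSG.IsMSGroup Γ) (H : Subgroup Γ)
    (hs : Group.IsSolvable H) (hc : ∀ z : H, (Subgroup.zpowers z).index = 0) :
    ∃ T : Finset H, Subgroup.closure (T : Set H) = ⊤ ∧ ∀ S : Finset Γ, ∃ c : ℕ,
      ∀ (l : List Γ) (g : H), (∀ s ∈ l, s ∈ S ∨ s⁻¹ ∈ S) → l.prod = (g : Γ) →
        ∃ l' : List H, (∀ t ∈ l', t ∈ T ∨ t⁻¹ ∈ T) ∧ l'.prod = g ∧ l'.length ≤ c * l.length :=
  MSG.FS.und_solvable Γ hΓ H hs hc

end Pool.Agent.Results.MP_2a6af3_al.SolvableSubgroups
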